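import Pool.Agent.helper64.AX.SpecR

/-!
# Project AX, row RNT: the main step for large `p`
-/

set_option autoImplicit false

namespace Pool.Agent.AX

open Matrix

theorem RNT (hR2 : R2_stmt) (hRFQ : RFQ_stmt) (hRPR : RPR_stmt) (hDNP : DNP_stmt) (hDNO : DNO_stmt)
    (hDPG : DPG_stmt) (hDUW : DUW_stmt) (hDTO : DTO_stmt) : RNT_stmt := by
  intro p m _ hp5 hpm Γ _ _ _ _ κ _ _ _ φ hker hφ hdvd hNoFix M hM hMc hMk Lp hLpo hLpn hLpa hLpM
    A q d k _ _ _ r L hq hLo hLn hLa hLr hrL hcon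
  classical
  -- the finite group
  have hQfin : ∀ U : Subgroup Γ, IsOpen (U : Set Γ) → U.FiniteIndex := fun U hU => by
    have := Subgroup.quotient_finite_of_isOpen U hU
    exact Subgroup.finiteIndex_of_finite_quotient
  have hfinQ : Finite (Γ ⧸ φ.ker) := Subgroup.quotient_finite_of_isOpen φ.ker hker
  have hfinR : Finite φ.range := Finite.of_equiv _ (QuotientGroup.quotientKerEquivRange φ).toEquiv
  have hfin : (φ.range : Set (Equiv.Perm (OnePoint κ))).Finite := Set.toFinite _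
  have hpgl : ∀ h ∈ φ.range, ∃ g : GL (Fin 2) κ, pm κ g = h := by
    rintro _ ⟨g, rfl⟩
    exact hφ g
  have hFPA : FPA p φ.range := hDPG p κ φ.range hfin hpgl
  have hN1le : M.map φ ≤ φ.range := by
    rintro _ ⟨g, -, rfl⟩
    exact ⟨g, rfl⟩
  have hN1ne : M.map φ ≠ ⊥ := by
    intro h
    apply hMk
    intro g hg
    rw [MonoidHom.mem_ker]
    have h1 : φ g ∈ M.map φ := ⟨g, hg, rfl⟩
    rw [h] at h1
    exact Subgroup.mem_bot.1 h1
  obtain ⟨hd1, hnf1, -⟩ := hDNO p (OnePoint κ) φ.range (M.map φ) hp5 hFPA hdvd hNoFix hN1le hN1ne (by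
    rintro _ ⟨h, rfl⟩ _ ⟨n, hn, rfl⟩
    exact ⟨h * n * h⁻¹, hM.conj_mem n hn h, by rw [map_mul, map_mul, map_inv]⟩)
  obtain ⟨γ, hu, hw⟩ := hDUW p κ (M.map φ) hp5 (hfin.subset hN1le) (fun h hh => hpgl h (hN1le hh)) hd1 hnf1
  obtain ⟨hup, hu1, ht⟩ := hDTO p κ (M.map φ) γ hu hw
  -- compactness
  obtain ⟨A₀, s₀, hA₀⟩ := hR2 Γ (Option A) (fun o s => o.elim (Lp s) (fun a => L a s))
    (by
      rintro (_ | a) s
      · exact hLpo s
      · exact hLo a s)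
    (by
      rintro (_ | a)
      · exact hLpa
      · exact hLa a) M φ.ker hMc hker (by
      refine le_trans ?_ hcon
      intro g hg0
      obtain ⟨hgM, hg⟩ := Subgroup.mem_inf.1 hg0
      have hg2 : ∀ (o : Option A) (s : ℕ), g ∈ (o.elim (Lp s) (fun a => L a s) : Subgroup Γ) := by
        intro o s
        exact Subgroup.mem_iInf.1 (Subgroup.mem_iInf.1 hg o) s
      refine Subgroup.mem_inf.2 ⟨Subgroup.mem_inf.2 ⟨hgM, ?_⟩, ?_⟩
      · exact Subgroup.mem_iInf.2 fun s => hg2 none s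
      · exact Subgroup.mem_iInf.2 fun a => Subgroup.mem_iInf.2 fun s => hg2 (some a) s)
  have hA1 : ∀ g ∈ M, g ∈ Lp s₀ → (∀ a : {a : A // some a ∈ A₀}, g ∈ L a.1 s₀) → g ∈ φ.ker := by
    intro g hgM hgp hga
    apply hA₀
    refine Subgroup.mem_inf.2 ⟨hgM, ?_⟩
    simp only [Subgroup.mem_iInf]
    rintro (_ | a) ha
    · exact hgp
    · exact hga ⟨a, ha⟩
  have hfinι : Finite {a : A // some a ∈ A₀} := by
    have : Function.Injective (fun a : {a : A // some a ∈ A₀} => (⟨some a.1, a.2⟩ : {o : Option A // o ∈ A₀})) := by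
      intro a b h
      exact Subtype.ext (Option.some_injective _ (congrArg Subtype.val h))
    exact Finite.of_injective _ this
  -- the normal subgroup `Q`
  have hQn : ∀ g ∈ M ⊓ ⨅ a : {a : A // some a ∈ A₀}, L a.1 s₀, ∀ h : Γ,
      h * g * h⁻¹ ∈ M ⊓ ⨅ a : {a : A // some a ∈ A₀}, L a.1 s₀ := by
    intro g hg0 h
    obtain ⟨hgM, hg⟩ := Subgroup.mem_inf.1 hg0
    exact Subgroup.mem_inf.2 ⟨hM.conj_mem g hgM h, Subgroup.mem_iInf.2 fun a =>
      (hLn a.1 s₀).conj_mem g (Subgroup.mem_iInf.1 hg a) h⟩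
  have hP : (M ⊓ ⨅ a : {a : A // some a ∈ A₀}, L a.1 s₀).map φ = ⊥ := by
    refine hDNP p (OnePoint κ) φ.range _ hFPA hNoFix ?_ ?_ ?_
    · rintro _ ⟨g, -, rfl⟩
      exact ⟨g, rfl⟩
    · rintro _ ⟨h, rfl⟩ _ ⟨g, hg, rfl⟩
      exact ⟨h * g * h⁻¹, hQn g hg h, by rw [map_mul, map_mul, map_inv]⟩
    · rintro _ ⟨g, hg0, rfl⟩
      obtain ⟨hgM, hg⟩ := Subgroup.mem_inf.1 hg0
      obtain ⟨j, hj⟩ := hLpM g hgM s₀
      refine ⟨j, ?_⟩
      rw [← map_pow]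
      apply MonoidHom.mem_ker.1
      apply hA1 _ (pow_mem hgM _) hj
      intro a
      exact pow_mem (Subgroup.mem_iInf.1 hg a) _
  have hQk : M ⊓ ⨅ a : {a : A // some a ∈ A₀}, L a.1 s₀ ≤ φ.ker := by
    intro g hg
    have h1 : φ g ∈ (M ⊓ ⨅ a : {a : A // some a ∈ A₀}, L a.1 s₀).map φ := ⟨g, hg, rfl⟩
    rw [hP] at h1
    exact MonoidHom.mem_ker.2 (Subgroup.mem_bot.1 h1)
  -- the end
  have hmp : m < p := by
    have := Nat.self_le_factorial m
    omega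
  have hkey : ∀ g : ℕ, ¬ p ∣ g →
      pm κ (γ * uu κ * γ⁻¹) ^ g ^ (2 * m.factorial) = pm κ (γ * uu κ * γ⁻¹) := by
    intro g hg
    obtain ⟨t, htM, htu⟩ := ht g hg
    have h1 := hRFQ p m Γ (Equiv.Perm (OnePoint κ)) {a : A // some a ∈ A₀} (fun a => q a.1)
      (fun a => d a.1) (fun a => k a.1) (fun a => r a.1) (fun a => L a.1 s₀) φ M
      (pm κ (γ * uu κ * γ⁻¹)) t (g ^ 2) hmp (fun a => (hq a.1).2.2) (fun a => ⟨(hq a.1).1, (hq a.1).2.1⟩)
      (fun a => hLn a.1 s₀) (fun a => hQfin _ (hLo a.1 s₀)) (fun a => hLr a.1 s₀)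
      (fun a g hg => hrL a.1 g hg s₀) hQk hu htM hup htu
    rwa [← pow_mul] at h1
  have hdiv : p - 1 ∣ 2 * m.factorial := hRPR p _ _ _ hup hu1 hkey
  have hpos := Nat.factorial_pos m
  have := Nat.le_of_dvd (by omega) hdiv
  omega

end Pool.Agent.AX
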